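import Pool.Agent.P.MP_b83182_al.Sub

/-!
A 20-dimensional 3-step nilpotent real Lie algebra whose rational forms, taken as rational
subalgebras, form exactly two orbits under the automorphism group, not isomorphic to each other.
-/

namespace Pool.Agent.Results.MP_b83182_al.TwoOrbits

open Pool.Agent.P.MP_b83182_al

theorem result :
    ∃ (L : Type) (_ : LieRing L) (_ : LieAlgebra ℝ L) (_ : LieAlgebra ℚ L)
      (_ : IsScalarTower ℚ ℝ L),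
      Module.finrank ℝ L = 20 ∧ LieModule.lowerCentralSeries ℝ L L 3 = ⊥ ∧
      ∃ N₀ N₁ : LieSubalgebra ℚ L,
        (Submodule.span ℝ (N₀ : Set L) = ⊤ ∧ Module.finrank ℚ N₀ = 20) ∧
        (Submodule.span ℝ (N₁ : Set L) = ⊤ ∧ Module.finrank ℚ N₁ = 20) ∧
        IsEmpty (N₀ ≃ₗ⁅ℚ⁆ N₁) ∧
        ∀ N : LieSubalgebra ℚ L, Submodule.span ℝ (N : Set L) = ⊤ → Module.finrank ℚ N = 20 →
          ∃ φ : L ≃ₗ⁅ℝ⁆ L, φ '' (N : Set L) = N₀ ∨ φ '' (N : Set L) = N₁ := by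
  obtain ⟨e0⟩ := is_form (c := 1) one_pos
  obtain ⟨e1⟩ := is_form (c := 3) (by norm_num)
  obtain ⟨N₀, s0, ⟨ψ0⟩⟩ := sub_exists e0
  obtain ⟨N₁, s1, ⟨ψ1⟩⟩ := sub_exists e1
  refine ⟨G ℝ 1 1 1, inferInstance, inferInstance, inferInstance, inferInstance,
    finrank_G _ _ _, nilpotent_G, N₀, N₁, ⟨s0, ?_⟩, ⟨s1, ?_⟩,
    ⟨fun φ => not_equiv ⟨ψ1.trans (φ.symm.trans ψ0.symm)⟩⟩, fun N hs hd => ?_⟩
  · rw [← ψ0.toLinearEquiv.finrank_eq, finrank_G]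
  · rw [← ψ1.toLinearEquiv.finrank_eq, finrank_G]
  · have : FiniteDimensional ℚ N := Module.finite_of_finrank_pos (by rw [hd]; norm_num)
    have hd' : Module.finrank ℚ N = Module.finrank ℝ (G ℝ 1 1 1) := by rw [hd, finrank_G]
    have r1 : Set.range N.incl = (N : Set (G ℝ 1 1 1)) := by
      ext x
      constructor
      · rintro ⟨u, rfl⟩
        exact u.2
      · intro hx
        exact ⟨⟨x, hx⟩, rfl⟩
    obtain ⟨l, -⟩ := sub_equiv N.incl (by rw [r1, hs]) hd'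
    rcases classification l.symm with ⟨⟨ψ⟩⟩ | ⟨⟨ψ⟩⟩
    · obtain ⟨φ, hφ⟩ := sub_aut hs s0 hd' (ψ.trans ψ0)
      exact ⟨φ, Or.inl hφ⟩
    · obtain ⟨φ, hφ⟩ := sub_aut hs s1 hd' (ψ.trans ψ1)
      exact ⟨φ, Or.inr hφ⟩

end Pool.Agent.Results.MP_b83182_al.TwoOrbits
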